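import Mathlib
import Pool.Agent.H1.DjrB

open Filter Topology Set MeasureTheory

namespace Pool.Agent.Results.MP_d393fc_an.Converges

noncomputable def D (ω : ℝ → ℝ) (k : ℕ) : ℝ := k * ∫ t in Ioi (0 : ℝ), ω t * t ^ (k - 1)
noncomputable def L (ω : ℝ → ℝ) (r : ℝ) : ℝ := ∫ t in Ioi r, ω t / t
noncomputable def I (ω : ℝ → ℝ) (k : ℕ) (r : ℝ) : ℝ := ∫ t in Ioc 0 r, ω t * t ^ (k - 1)
noncomputable def J (ω : ℝ → ℝ) (k : ℕ) (r : ℝ) : ℝ := ∫ t in Ioi r, ω t / t ^ (k + 1)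

/-- The `k`-th term of the series in `W`; `σ = -1` is the formula of the problem file. -/
noncomputable def tm (ω : ℝ → ℝ) (σ : ℤ) (z a : ℂ) (k : ℕ) : ℂ :=
  (a ^ (-(k : ℤ)) * I ω k ‖a‖ - (starRingEnd ℂ) a ^ (σ * k) * J ω k ‖a‖) * z ^ k / D ω k

noncomputable def W (ω : ℝ → ℝ) (σ : ℤ) (z a : ℂ) : ℂ := L ω ‖a‖ - ∑' k, tm ω σ z a (k + 1)

noncomputable def A (ω : ℝ → ℝ) (σ : ℤ) (z a : ℂ) : ℂ := (1 - z / a) * Complex.exp (-W ω σ z a)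

theorem result (ω : ℝ → ℝ) (hpos : ∀ t, 0 ≤ t → 0 < ω t) (hcont : ContinuousOn ω (Ici 0))
    (hanti : AntitoneOn ω (Ici 0))
    (hint : ∀ k : ℕ, IntegrableOn (fun t => ω t * t ^ k) (Ioi 0))
    (T : ℝ) (hT : 0 < T) (hdiff : ∀ t, T ≤ t → DifferentiableAt ℝ ω t)
    (hlc : AntitoneOn (fun t => t * deriv ω t / ω t) (Ici T))
    (σ : ℤ) (hσ : σ = 1 ∨ σ = -1) (a : ℕ → ℂ) (ha : ∀ n, a n ≠ 0)
    (hs : Summable fun n => L ω ‖a n‖) :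
    (∀ n z, Summable fun k => tm ω σ z (a n) (k + 1)) ∧
    ∃ P : ℂ → ℂ, (∀ K : Set ℂ, IsCompact K → TendstoUniformlyOn
      (fun N z => ∏ n ∈ Finset.range N, A ω σ z (a n)) P atTop K) ∧
      ∀ z, (∀ n, z ≠ a n) → P z ≠ 0 :=
  have h : H1.DjrA.Hyp ω T := ⟨hpos, hcont, hanti, hint, hT, hdiff, hlc⟩
  ⟨fun n z => H1.DjrB.tm_sum h hσ (ha n) z, H1.DjrB.main h hσ a ha hs⟩

end Pool.Agent.Results.MP_d393fc_an.Converges
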